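import Pool.Agent.Lib_helper41.TK.Defs
import Pool.Agent.Lib_helper68.KSLF.WRS
import Pool.Agent.Lib_helper68.KSLF.BET
import Pool.Agent.Lib_helper68.KSLF.SZF

/-! TK, block TC. -/

set_option autoImplicit false

namespace Pool.Agent.TK

open Pool.Agent.LEV Pool.Agent.LVB Pool.Agent.KSL
open Pool.Agent.LK (PQ)
open Pool.Agent.FG61 (mu phi cc ff AA Lam)
open Complex MeasureTheory Filter Topology UpperHalfPlane ModularGroup ProbabilityTheory
open scoped MatrixGroups Modular ENNReal ModularForm ComplexConjugate ContDiff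

/-- the weight function is bounded -/
theorem tc_gE {z M e : ℕ} (hM : 1 < M) (hb : |be z M 2| ≤ Real.log M) (he : 1 ≤ e) :
    |Pool.Agent.KSL.gE z M 2 e| ≤ Real.log M := by
  have hM1 : (1 : ℝ) < M := by exact_mod_cast hM
  have hL : 0 < Real.log M := Real.log_pos hM1
  have he1 : (1 : ℝ) ≤ e := by exact_mod_cast he
  unfold Pool.Agent.KSL.gE
  split_ifs with h1 h2
  · have h3 : (e : ℝ) ≤ M := by exact_mod_cast h1
    have h4 : 1 ≤ (M : ℝ) / e := by rw [le_div_iff₀ (by linarith)]; linarith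
    rw [abs_of_nonneg (Real.log_nonneg h4)]
    exact Real.log_le_log (by linarith) (div_le_self (by linarith) he1)
  · exact hb
  · rw [abs_zero]; exact hL.le

theorem tc_yE {z M e : ℕ} (hM : 1 < M) (hb : |be z M 2| ≤ Real.log M) (he : 1 ≤ e) :
    |yE z M 2 e| ≤ 1 / e := by
  have hM1 : (1 : ℝ) < M := by exact_mod_cast hM
  have hL : 0 < Real.log M := Real.log_pos hM1
  have he1 : (1 : ℝ) ≤ e := by exact_mod_cast he
  unfold yE
  split_ifs with h1
  · have h2 := tc_gE hM hb he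
    have h3 := WRS_mu_abs e
    rw [abs_div, abs_mul, abs_of_pos (show (0 : ℝ) < e * Real.log M by positivity)]
    calc |mu e| * |Pool.Agent.KSL.gE z M 2 e| / (e * Real.log M) ≤ 1 * Real.log M / (e * Real.log M) := by gcongr
      _ = 1 / e := by field_simp
  · rw [abs_zero]; positivity

/-- the number of prime factors -/
theorem tc_card {q : ℕ} (hq : 1 ≤ q) : (q.primeFactors.card : ℝ) * Real.log 2 ≤ Real.log q := by
  have h1 : 2 ^ q.primeFactors.card ≤ q := by
    calc 2 ^ q.primeFactors.card ≤ ∏ p ∈ q.primeFactors, p := by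
          apply Finset.pow_card_le_prod
          intro p hp
          exact (Nat.prime_of_mem_primeFactors hp).two_le
      _ ≤ q := Nat.le_of_dvd (by omega) (Nat.prod_primeFactors_dvd q)
  have h2 : ((2 : ℝ)) ^ q.primeFactors.card ≤ q := by exact_mod_cast h1
  have h3 := Real.log_le_log (by positivity) h2
  rwa [Real.log_pow] at h3

theorem tc_harm (X : ℕ) : ∑ k ∈ Finset.Icc 1 X, 1 / (k : ℝ) ≤ 1 + Real.log X := by
  have h2 := harmonic_le_one_add_log X
  have h3 : ((harmonic X : ℚ) : ℝ) = ∑ k ∈ Finset.Icc 1 X, 1 / (k : ℝ) := by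
    rw [harmonic_eq_sum_Icc]
    push_cast
    simp [one_div]
  rwa [h3] at h2

/-- the sum over the multiples of `p` -/
theorem tc_mult {p X r : ℕ} (hp : 1 ≤ p) (hr : 1 ≤ r) :
    ∑ m ∈ (Finset.Icc 1 X).filter (fun m => p ∣ m), 1 / ((r * m : ℕ) : ℝ) ≤
      (1 + Real.log X) / (r * p) := by
  have hp0 : (0 : ℝ) < p := by exact_mod_cast hp
  have hr0 : (0 : ℝ) < r := by exact_mod_cast hr
  have h1 : ∑ m ∈ (Finset.Icc 1 X).filter (fun m => p ∣ m), 1 / ((r * m : ℕ) : ℝ) ≤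
      ∑ k ∈ Finset.Icc 1 X, 1 / ((r * (p * k) : ℕ) : ℝ) := by
    have h2 : (Finset.Icc 1 X).filter (fun m => p ∣ m) ⊆
        (Finset.Icc 1 X).image (fun k => p * k) := by
      intro m hm
      rw [Finset.mem_filter, Finset.mem_Icc] at hm
      obtain ⟨⟨h3, h4⟩, k, rfl⟩ := hm
      rw [Finset.mem_image]
      refine ⟨k, ?_, rfl⟩
      rw [Finset.mem_Icc]
      constructor
      · rcases Nat.eq_zero_or_pos k with h | h
        · subst h; simp at h3
        · exact h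
      · exact (Nat.le_mul_of_pos_left k hp).trans h4
    refine (Finset.sum_le_sum_of_subset_of_nonneg h2 fun _ _ _ => by positivity).trans ?_
    rw [Finset.sum_image]
    intro a _ b _ hab
    exact Nat.eq_of_mul_eq_mul_left (by omega) hab
  refine h1.trans ?_
  have h5 : ∑ k ∈ Finset.Icc 1 X, 1 / ((r * (p * k) : ℕ) : ℝ) =
      1 / (r * p) * ∑ k ∈ Finset.Icc 1 X, 1 / (k : ℝ) := by
    rw [Finset.mul_sum]
    apply Finset.sum_congr rfl
    intro k hk
    push_cast
    rw [div_mul_div_comm, one_mul, mul_assoc]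
  rw [h5, div_mul_eq_mul_div, one_mul]
  have := tc_harm X
  gcongr

/-- the indices which are not coprime to `q` contribute little -/
theorem tc_diff {q z M r : ℕ} (hM : 1 < M) (hb : |be z M 2| ≤ Real.log M) (hz : 1 ≤ z)
    (hq : 1 ≤ q) (hr : r.Coprime q) (hr1 : 1 ≤ r) :
    |wC q z M 2 r - wr z M 2 r| ≤
      Real.log q / Real.log 2 * ((1 + Real.log ((2 * M : ℕ) : ℝ)) / (r * z)) := by
  classical
  have hz0 : (0 : ℝ) < z := by exact_mod_cast hz
  have hr0 : (0 : ℝ) < r := by exact_mod_cast hr1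
  have hl2 : 0 < Real.log 2 := Real.log_pos (by norm_num)
  have h1 : wC q z M 2 r - wr z M 2 r =
      -∑ m ∈ (Finset.Icc 1 (2 * M)).filter (fun m => ¬ (r * m).Coprime q), yE z M 2 (r * m) := by
    unfold wC wr
    rw [← Finset.sum_filter_add_sum_filter_not (Finset.Icc 1 (2 * M))
      (fun m => (r * m).Coprime q)]
    ring
  rw [h1, abs_neg]
  have h2 : ∀ m ∈ (Finset.Icc 1 (2 * M)).filter (fun m => ¬ (r * m).Coprime q),
      |yE z M 2 (r * m)| ≤ ∑ p ∈ q.primeFactors.filter (fun p => z < p),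
        if p ∣ m then 1 / ((r * m : ℕ) : ℝ) else 0 := by
    intro m hm
    rw [Finset.mem_filter, Finset.mem_Icc] at hm
    obtain ⟨⟨hm1, hm2⟩, hnc⟩ := hm
    have hnn : ∀ p ∈ q.primeFactors.filter (fun p => z < p),
        0 ≤ (if p ∣ m then 1 / ((r * m : ℕ) : ℝ) else 0) := by
      intro p _
      split_ifs
      · positivity
      · exact le_rfl
    by_cases hy : yE z M 2 (r * m) = 0
    · rw [hy, abs_zero]
      exact Finset.sum_nonneg hnn
    have hrough : rough z (r * m) := by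
      by_contra h
      apply hy
      unfold yE
      rw [if_neg (fun h' => h h'.1)]
    rw [Nat.coprime_iff_gcd_eq_one] at hnc
    obtain ⟨p, hp, hpg⟩ := Nat.exists_prime_and_dvd hnc
    have hp1 := hpg.trans (Nat.gcd_dvd_left _ _)
    have hp2 := hpg.trans (Nat.gcd_dvd_right _ _)
    have hpz := hrough p hp hp1
    have hpm : p ∣ m := by
      rcases (hp.dvd_mul).1 hp1 with h | h
      · exact absurd (Nat.eq_one_of_dvd_coprimes hr h hp2) hp.one_lt.ne'
      · exact h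
    have hmem : p ∈ q.primeFactors.filter (fun p => z < p) := by
      rw [Finset.mem_filter, Nat.mem_primeFactors]
      exact ⟨⟨hp, hp2, by omega⟩, hpz⟩
    calc |yE z M 2 (r * m)| ≤ 1 / ((r * m : ℕ) : ℝ) :=
          tc_yE hM hb (Nat.mul_pos hr1 hm1)
      _ = (if p ∣ m then 1 / ((r * m : ℕ) : ℝ) else 0) := by rw [if_pos hpm]
      _ ≤ _ := Finset.single_le_sum hnn hmem
  have hX : 0 ≤ 1 + Real.log ((2 * M : ℕ) : ℝ) := by
    have : 0 ≤ Real.log ((2 * M : ℕ) : ℝ) := Real.log_natCast_nonneg _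
    linarith
  calc |∑ m ∈ (Finset.Icc 1 (2 * M)).filter (fun m => ¬ (r * m).Coprime q), yE z M 2 (r * m)|
      ≤ ∑ m ∈ (Finset.Icc 1 (2 * M)).filter (fun m => ¬ (r * m).Coprime q),
          |yE z M 2 (r * m)| := Finset.abs_sum_le_sum_abs _ _
    _ ≤ ∑ m ∈ (Finset.Icc 1 (2 * M)).filter (fun m => ¬ (r * m).Coprime q),
          ∑ p ∈ q.primeFactors.filter (fun p => z < p),
            (if p ∣ m then 1 / ((r * m : ℕ) : ℝ) else 0) := Finset.sum_le_sum h2
    _ ≤ ∑ m ∈ Finset.Icc 1 (2 * M),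
          ∑ p ∈ q.primeFactors.filter (fun p => z < p),
            (if p ∣ m then 1 / ((r * m : ℕ) : ℝ) else 0) := by
        apply Finset.sum_le_sum_of_subset_of_nonneg (Finset.filter_subset _ _)
        intro m _ _
        apply Finset.sum_nonneg
        intro p _
        split_ifs
        · positivity
        · exact le_rfl
    _ = ∑ p ∈ q.primeFactors.filter (fun p => z < p),
          ∑ m ∈ (Finset.Icc 1 (2 * M)).filter (fun m => p ∣ m), 1 / ((r * m : ℕ) : ℝ) := by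
        rw [Finset.sum_comm]
        apply Finset.sum_congr rfl
        intro p _
        rw [Finset.sum_filter]
    _ ≤ ∑ p ∈ q.primeFactors.filter (fun p => z < p),
          (1 + Real.log ((2 * M : ℕ) : ℝ)) / (r * z) := by
        apply Finset.sum_le_sum
        intro p hp
        rw [Finset.mem_filter] at hp
        have hzp : (z : ℝ) ≤ p := by exact_mod_cast hp.2.le
        refine (tc_mult (by omega) hr1).trans ?_
        gcongr
    _ = ((q.primeFactors.filter (fun p => z < p)).card : ℝ) *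
          ((1 + Real.log ((2 * M : ℕ) : ℝ)) / (r * z)) := by
        rw [Finset.sum_const, nsmul_eq_mul]
    _ ≤ Real.log q / Real.log 2 * ((1 + Real.log ((2 * M : ℕ) : ℝ)) / (r * z)) := by
        have h3 : ((q.primeFactors.filter (fun p => z < p)).card : ℝ) ≤
            Real.log q / Real.log 2 := by
          rw [le_div_iff₀ hl2]
          refine le_trans ?_ (tc_card hq)
          have h4 : ((q.primeFactors.filter (fun p => z < p)).card : ℝ) ≤
              q.primeFactors.card := by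
            exact_mod_cast Finset.card_filter_le _ _
          gcongr
        gcongr

/-- the sizes -/
theorem tc_size {δ : ℝ} (h0 : 0 < δ) (h1 : δ < 1 / 4) {ε : ℝ} (hε : 0 < ε) : ∃ N₀ : ℕ,
    ∀ n : ℕ, N₀ ≤ n → 2 ≤ zz n ∧ zz n < MM δ n ∧ 1 ≤ Real.log n ∧
      Real.log (MM δ n) ≤ Real.log n ∧ |be (zz n) (MM δ n) 2| ≤ Real.log (MM δ n) ∧
      6 * Real.log n ^ 3 ≤ ε * zz n := by
  obtain ⟨N₁, hN₁⟩ := sizes h0 h1 (ε := min (1 / 4) (ε / 6)) (by positivity)
  obtain ⟨N₂, hN₂⟩ := be_small h0 h1 (ε := 1) one_pos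
  refine ⟨max N₁ N₂, fun n hn => ?_⟩
  obtain ⟨a1, a2, a3, -, a5, -, -, -, a9⟩ := hN₁ n ((le_max_left _ _).trans hn)
  obtain ⟨-, b2, -⟩ := hN₂ n ((le_max_right _ _).trans hn)
  rw [one_mul] at b2
  have hn3 : (3 : ℝ) ≤ n := by exact_mod_cast a1
  have hMn : MM δ n ≤ n := by
    unfold MM
    apply Nat.floor_le_of_le
    calc (n : ℝ) ^ (1 / 2 - δ) ≤ (n : ℝ) ^ (1 : ℝ) :=
          Real.rpow_le_rpow_of_exponent_le (by linarith) (by linarith)
      _ = n := Real.rpow_one _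
  have hz2 : (2 : ℝ) ≤ zz n := by exact_mod_cast a2
  have hzM : (zz n : ℝ) ≤ MM δ n := by exact_mod_cast a3.le
  have hMn' : (MM δ n : ℝ) ≤ n := by exact_mod_cast hMn
  have e1 : Real.log (zz n) ≤ Real.log (MM δ n) := Real.log_le_log (by linarith) hzM
  have e2 : Real.log (MM δ n) ≤ Real.log n := Real.log_le_log (by linarith) hMn'
  obtain ⟨κ, hκ⟩ : ∃ κ, κ = min (1 / 4 : ℝ) (ε / 6) := ⟨_, rfl⟩
  rw [← hκ] at a5 a9
  have hκ0 : 0 < κ := by rw [hκ]; positivity
  have hκ1 : κ ≤ 1 / 4 := by rw [hκ]; exact min_le_left _ _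
  have hκ2 : κ ≤ ε / 6 := by rw [hκ]; exact min_le_right _ _
  have e3 : 4 ≤ 1 / κ := by rw [le_div_iff₀ hκ0]; linarith
  have e4 : 6 / ε ≤ 1 / κ := by
    rw [div_le_div_iff₀ hε hκ0]
    linarith
  have e5 : 4 ≤ Real.log n := by linarith
  have e6 : 6 / ε ≤ Real.log n := by linarith
  rw [div_le_iff₀ hε] at e6
  refine ⟨a2, a3, by linarith, e2, b2, ?_⟩
  have hlz : 0 ≤ Real.log (zz n) := Real.log_nonneg (by linarith)
  have e7 : Real.log (Real.log n) ≤ 1 / 4 * Real.log (zz n) :=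
    a9.trans (mul_le_mul_of_nonneg_right hκ1 hlz)
  have e8 : Real.log n ^ 4 ≤ zz n := by
    rw [← Real.log_le_log_iff (by positivity) (by linarith), Real.log_pow]
    push_cast
    linarith
  obtain ⟨L, hL⟩ : ∃ L, L = Real.log n := ⟨_, rfl⟩
  rw [← hL] at e5 e6 e8 ⊢
  calc 6 * L ^ 3 ≤ (L * ε) * L ^ 3 := by gcongr
    _ = ε * L ^ 4 := by ring
    _ ≤ ε * zz n := by gcongr

theorem tc_small {δ : ℝ} (h0 : 0 < δ) (h1 : δ < 1 / 4) {ε : ℝ} (hε : 0 < ε) : ∃ N₀ : ℕ,
    ∀ n : ℕ, N₀ ≤ n → ∀ q : ℕ, 1 ≤ q → q ≤ n → ∀ r : ℕ, 1 ≤ r → r.Coprime q →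
      |phi r * Real.log (MM δ n) * Vz (zz n) *
        (wC q (zz n) (MM δ n) 2 r - wr (zz n) (MM δ n) 2 r)| ≤ ε := by
  obtain ⟨N₀, hN₀⟩ := tc_size h0 h1 hε
  refine ⟨N₀, fun n hn q hq hqn r hr1 hr => ?_⟩
  obtain ⟨a1, a2, a3, a4, a5, a6⟩ := hN₀ n hn
  have hz0 : (0 : ℝ) < zz n := by exact_mod_cast (show 0 < zz n by omega)
  have hr0 : (0 : ℝ) < r := by exact_mod_cast hr1
  have hM1 : (1 : ℝ) < MM δ n := by exact_mod_cast (show 1 < MM δ n by omega)
  have hL : 0 < Real.log (MM δ n) := Real.log_pos hM1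
  have hl2 : 0 < Real.log 2 := Real.log_pos (by norm_num)
  have hl2' : 1 / 2 ≤ Real.log 2 := by
    have := Real.log_two_gt_d9
    linarith
  have hl2'' : Real.log 2 ≤ 1 := by
    have := Real.log_two_lt_d9
    linarith
  have hd := tc_diff (q := q) (z := zz n) (M := MM δ n) (r := r) (by omega) a5 (by omega) hq hr hr1
  have hV := WRS_Vz_pos (zz n)
  have hV1 := WRS_Vz_le (zz n)
  have hphi : 0 ≤ phi r := Nat.cast_nonneg _
  have hphi2 := WRS_phi_le r
  have hq0 : (0 : ℝ) < q := by exact_mod_cast hq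
  have hlq : Real.log q ≤ Real.log n :=
    Real.log_le_log hq0 (by exact_mod_cast hqn)
  have hlq0 : 0 ≤ Real.log q := Real.log_natCast_nonneg _
  have h2M : Real.log ((2 * MM δ n : ℕ) : ℝ) = Real.log 2 + Real.log (MM δ n) := by
    push_cast
    rw [Real.log_mul (by norm_num) (by linarith)]
  rw [h2M] at hd
  rw [abs_mul, abs_of_nonneg (by positivity)]
  have hn0 : 0 ≤ Real.log n := by linarith
  have e1 : Real.log q / Real.log 2 ≤ 2 * Real.log n := by
    rw [div_le_iff₀ hl2]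
    nlinarith
  have e2 : 1 + (Real.log 2 + Real.log (MM δ n)) ≤ 3 * Real.log n := by linarith
  calc phi r * Real.log (MM δ n) * Vz (zz n) *
        |wC q (zz n) (MM δ n) 2 r - wr (zz n) (MM δ n) 2 r|
      ≤ r * Real.log n * 1 * (2 * Real.log n * ((3 * Real.log n) / (r * zz n))) := by
        gcongr
        refine hd.trans ?_
        have h3 : 0 ≤ 1 + (Real.log 2 + Real.log (MM δ n)) := by linarith
        gcongr
    _ = 6 * Real.log n ^ 3 / zz n := by field_simp; ring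
    _ ≤ ε := by rw [div_le_iff₀ hz0]; exact a6

/-- the weights of the rough denominators -/
theorem wC_asymp {δ : ℝ} (h0 : 0 < δ) (h1 : δ < 1 / 4) {ε : ℝ} (hε : 0 < ε) : ∃ N₀ : ℕ,
    ∀ n : ℕ, N₀ ≤ n → ∀ q : ℕ, 1 ≤ q → q ≤ n → ∀ r ∈ RO (zz n) (MM δ n), Squarefree r →
      r.Coprime q → (r : ℝ) ≤ MM δ n * (n : ℝ) ^ (-ε) →
      |phi r * Real.log (MM δ n) * Vz (zz n) * (mu r * wC q (zz n) (MM δ n) 2 r) - 1| ≤ ε := by
  obtain ⟨N₁, hN₁⟩ := wr_asymp h0 h1 (ε := ε / 2) (by positivity)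
  obtain ⟨N₂, hN₂⟩ := tc_small h0 h1 (ε := ε / 2) (by positivity)
  refine ⟨max (max N₁ N₂) 1, fun n hn q hq hqn r hr hsq hrq hrs => ?_⟩
  have hn1 : 1 ≤ n := (le_max_right _ _).trans hn
  have hn1' : (1 : ℝ) ≤ n := by exact_mod_cast hn1
  have hr1 := (WRS_mem_RO.1 hr).1
  have hle : (r : ℝ) ≤ MM δ n * (n : ℝ) ^ (-(ε / 2)) := by
    refine hrs.trans ?_
    have : (n : ℝ) ^ (-ε) ≤ (n : ℝ) ^ (-(ε / 2)) :=
      Real.rpow_le_rpow_of_exponent_le hn1' (by linarith)
    gcongr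
  have h3 := hN₁ n (((le_max_left _ _).trans (le_max_left _ _)).trans hn) r hr hsq hle
  have h4 := hN₂ n (((le_max_right _ _).trans (le_max_left _ _)).trans hn) q hq hqn r hr1 hrq
  have hmu := WRS_mu_abs r
  obtain ⟨P, hP⟩ : ∃ P, P = phi r * Real.log (MM δ n) * Vz (zz n) := ⟨_, rfl⟩
  rw [← hP] at h3 h4 ⊢
  calc |P * (mu r * wC q (zz n) (MM δ n) 2 r) - 1|
      = |(P * (mu r * wr (zz n) (MM δ n) 2 r) - 1) +
          mu r * (P * (wC q (zz n) (MM δ n) 2 r - wr (zz n) (MM δ n) 2 r))| := by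
        congr 1; ring
    _ ≤ |P * (mu r * wr (zz n) (MM δ n) 2 r) - 1| +
          |mu r * (P * (wC q (zz n) (MM δ n) 2 r - wr (zz n) (MM δ n) 2 r))| := abs_add_le _ _
    _ ≤ ε / 2 + 1 * (ε / 2) := by
        rw [abs_mul (mu r)]
        gcongr
    _ = ε := by ring

theorem wC_upper : ∃ C : ℝ, 0 < C ∧ ∀ δ : ℝ, 0 < δ → δ < 1 / 4 → ∃ N₀ : ℕ, ∀ n : ℕ, N₀ ≤ n →
    ∀ q : ℕ, 1 ≤ q → q ≤ n →
    (∀ r ∈ RO (zz n) (MM δ n),
      |phi r * Real.log (MM δ n) * Vz (zz n) * wC q (zz n) (MM δ n) 2 r| ≤ C) ∧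
    (∀ r ∈ PK (MM δ n) 2, |r * wC q (zz n) (MM δ n) 2 r| ≤ 1) := by
  obtain ⟨C, hC, hup⟩ := wr_upper
  refine ⟨C + 1, by positivity, fun δ h0 h1 => ?_⟩
  obtain ⟨N₁, hN₁⟩ := hup δ h0 h1
  obtain ⟨N₂, hN₂⟩ := tc_small h0 h1 (ε := 1) one_pos
  obtain ⟨N₃, hN₃⟩ := tc_size h0 h1 (ε := 1) one_pos
  refine ⟨max (max N₁ N₂) N₃, fun n hn q hq hqn => ?_⟩
  obtain ⟨u1, u2⟩ := hN₁ n (((le_max_left _ _).trans (le_max_left _ _)).trans hn)
  have u3 := hN₂ n (((le_max_right _ _).trans (le_max_left _ _)).trans hn) q hq hqn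
  obtain ⟨a1, a2, -, -, -, -⟩ := hN₃ n ((le_max_right _ _).trans hn)
  constructor
  · intro r hr
    have hr1 := (WRS_mem_RO.1 hr).1
    by_cases hc : r.Coprime q
    · have h3 := u1 r hr
      have h4 := u3 r hr1 hc
      obtain ⟨P, hP⟩ : ∃ P, P = phi r * Real.log (MM δ n) * Vz (zz n) := ⟨_, rfl⟩
      rw [← hP] at h3 h4 ⊢
      calc |P * wC q (zz n) (MM δ n) 2 r|
          = |P * wr (zz n) (MM δ n) 2 r +
              P * (wC q (zz n) (MM δ n) 2 r - wr (zz n) (MM δ n) 2 r)| := by congr 1; ring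
        _ ≤ |P * wr (zz n) (MM δ n) 2 r| +
              |P * (wC q (zz n) (MM δ n) 2 r - wr (zz n) (MM δ n) 2 r)| := abs_add_le _ _
        _ ≤ C + 1 := add_le_add h3 h4
    · have h5 : wC q (zz n) (MM δ n) 2 r = 0 := by
        unfold wC
        apply Finset.sum_eq_zero
        intro m hm
        rw [Finset.mem_filter] at hm
        exact absurd (Nat.Coprime.coprime_mul_right hm.2) hc
      rw [h5, mul_zero, abs_zero]
      positivity
  · intro r hr
    obtain ⟨p1, p2, p3⟩ := WRS_mem_PK.1 hr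
    have hbig : ∀ m : ℕ, 1 ≤ m → m ≠ 1 → yE (zz n) (MM δ n) 2 (r * m) = 0 := by
      intro m hm hm1
      have hm2 : 2 ≤ m := by omega
      have h4 : MM δ n < r * m := by nlinarith
      apply WRS_yE_big h4
      intro hP
      obtain ⟨_, _, h7⟩ := WRS_mem_PK.1 hP
      rcases (Nat.dvd_prime h7).1 (Dvd.intro m rfl) with h5 | h5
      · exact p3.one_lt.ne' h5
      · have : r * 2 ≤ r * m := Nat.mul_le_mul_left r hm2
        have := p3.pos
        omega
    by_cases hc : r.Coprime q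
    · have h6 : wC q (zz n) (MM δ n) 2 r = wr (zz n) (MM δ n) 2 r := by
        unfold wC wr
        apply Finset.sum_subset (Finset.filter_subset _ _)
        intro m hm hm'
        rw [Finset.mem_Icc] at hm
        apply hbig m hm.1
        rintro rfl
        apply hm'
        rw [Finset.mem_filter, Finset.mem_Icc, mul_one]
        exact ⟨hm, hc⟩
      rw [h6]
      exact u2 r hr
    · have h5 : wC q (zz n) (MM δ n) 2 r = 0 := by
        unfold wC
        apply Finset.sum_eq_zero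
        intro m hm
        rw [Finset.mem_filter] at hm
        exact absurd (Nat.Coprime.coprime_mul_right hm.2) hc
      rw [h5, mul_zero, abs_zero]
      norm_num

end Pool.Agent.TK
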