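import Pool.Agent.Lib_helper41.TK.W.TB
import Pool.Agent.Lib_helper41.TK.W.TC
import Pool.Agent.Lib_helper68.KSLF.BET
import Pool.Agent.Lib_helper68.KSLF.PHI
import Pool.Agent.Lib_helper68.KSLF.RSA
import Pool.Agent.Lib_helper68.KSLF.RSB
import Pool.Agent.Lib_helper68.KSLF.SRO
import Pool.Agent.Lib_helper68.KSLF.SZF
import Pool.Agent.Lib_helper68.KSLF.GDL

/-! TK, block TD. -/

set_option autoImplicit false

namespace Pool.Agent.TK

open Pool.Agent.LEV Pool.Agent.LVB Pool.Agent.KSL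
open Pool.Agent.LK (PQ)
open Pool.Agent.FG61 (mu phi cc ff AA Lam)
open Complex MeasureTheory Filter Topology UpperHalfPlane ModularGroup ProbabilityTheory
open scoped MatrixGroups Modular ENNReal ModularForm ComplexConjugate ContDiff

/-! ## The smooth denominators -/

/-- the product over the small primes not dividing `q` -/
noncomputable def td_V (q z : ℕ) : ℝ :=
  ∏ p ∈ (Finset.Icc 1 z).filter (fun p => p.Prime ∧ ¬ p ∣ q), (1 - 1 / (p : ℝ))

/-- the product over the small primes dividing `q` -/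
noncomputable def td_P (q z : ℕ) : ℝ :=
  ∏ p ∈ (Finset.Icc 1 z).filter (fun p => p.Prime ∧ p ∣ q), (1 - 1 / (p : ℝ))

theorem td_factor_pos {p : ℕ} (hp : p.Prime) : 0 < 1 - 1 / (p : ℝ) := by
  have h1 : (1 : ℝ) < p := by exact_mod_cast hp.one_lt
  have h2 : 1 / (p : ℝ) < 1 := by
    rw [div_lt_one (by linarith)]; exact h1
  linarith

theorem td_V_pos (q z : ℕ) : 0 < td_V q z := by
  unfold td_V
  exact Finset.prod_pos fun p hp => td_factor_pos (Finset.mem_filter.1 hp).2.1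

theorem td_P_pos (q z : ℕ) : 0 < td_P q z := by
  unfold td_P
  exact Finset.prod_pos fun p hp => td_factor_pos (Finset.mem_filter.1 hp).2.1

theorem td_PV (q z : ℕ) : td_P q z * td_V q z = Vz z := by
  unfold td_P td_V Vz
  rw [← Finset.prod_filter_mul_prod_filter_not ((Finset.Icc 1 z).filter Nat.Prime)
    (fun p => p ∣ q), Finset.filter_filter, Finset.filter_filter]

open Classical in
theorem td_hasSum (q z : ℕ) :
    HasSum (fun m : ℕ => if smooth z m ∧ m.Coprime q then (1 : ℝ) / m else 0) (td_V q z)⁻¹ := by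
  let f : ℕ →* ℝ :=
    { toFun := fun m => if m.Coprime q then (m : ℝ)⁻¹ else 0
      map_one' := by simp
      map_mul' := by
        intro a b
        by_cases ha : a.Coprime q
        · by_cases hb : b.Coprime q
          · rw [if_pos ha, if_pos hb, if_pos (Nat.Coprime.mul_left ha hb)]
            push_cast
            exact mul_inv _ _
          · rw [if_neg hb, mul_zero, if_neg]
            intro h
            exact hb (Nat.Coprime.coprime_mul_left h)
        · rw [if_neg ha, zero_mul, if_neg]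
          intro h
          exact ha (Nat.Coprime.coprime_mul_right h) }
  have hf0 : ∀ m : ℕ, f m = if m.Coprime q then (m : ℝ)⁻¹ else 0 := fun m => rfl
  have hf : ∀ {p : ℕ}, p.Prime → ‖f p‖ < 1 := by
    intro p hp
    have h1 : (1 : ℝ) < p := by exact_mod_cast hp.one_lt
    rw [hf0]
    split_ifs
    · rw [Real.norm_of_nonneg (by positivity)]
      exact inv_lt_one_of_one_lt₀ h1
    · simp
  have h := (EulerProduct.summable_and_hasSum_smoothNumbers_prod_primesBelow_geometric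
    (f := f) hf (z + 1)).2
  have h2 : (∏ p ∈ (z + 1).primesBelow, (1 - f p)⁻¹) = (td_V q z)⁻¹ := by
    unfold td_V
    rw [← Finset.prod_inv_distrib]
    symm
    apply Finset.prod_subset_one_on_sdiff
    · intro p hp
      rw [Finset.mem_filter, Finset.mem_Icc] at hp
      rw [Nat.primesBelow, Finset.mem_filter, Finset.mem_range]
      exact ⟨by omega, hp.2.1⟩
    · intro p hp
      rw [Finset.mem_sdiff, Nat.primesBelow, Finset.mem_filter, Finset.mem_range,
        Finset.mem_filter, Finset.mem_Icc] at hp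
      obtain ⟨⟨h3, h4⟩, h5⟩ := hp
      have h6 : p ∣ q := by
        by_contra h6
        exact h5 ⟨⟨h4.one_le, by omega⟩, h4, h6⟩
      have h7 : ¬ p.Coprime q := fun h8 => (h4.coprime_iff_not_dvd.1 h8) h6
      rw [hf0, if_neg h7, sub_zero, inv_one]
    · intro p hp
      rw [Finset.mem_filter, Finset.mem_Icc] at hp
      have h7 : p.Coprime q := hp.2.1.coprime_iff_not_dvd.2 hp.2.2
      rw [hf0, if_pos h7, one_div]
  rw [h2] at h
  have h3 := (hasSum_subtype_iff_indicator (s := Nat.smoothNumbers (z + 1))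
    (f := fun m : ℕ => f m)).1 h
  convert h3 using 1
  funext m
  by_cases hm : smooth z m
  · rw [Set.indicator_of_mem (phi_smooth_iff.1 hm), hf0]
    by_cases hc : m.Coprime q
    · rw [if_pos ⟨hm, hc⟩, if_pos hc, one_div]
    · rw [if_neg (fun h => hc h.2), if_neg hc]
  · rw [if_neg (fun h => hm h.1), Set.indicator_of_notMem (fun h => hm (phi_smooth_iff.2 h))]

open Classical in
theorem td_hasSum_dvd {q z L : ℕ} (hL : smooth z L) (hLq : L.Coprime q) :
    HasSum (fun m : ℕ => if (smooth z m ∧ m.Coprime q) ∧ L ∣ m then (1 : ℝ) / m else 0)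
      ((L : ℝ)⁻¹ * (td_V q z)⁻¹) := by
  have h := (td_hasSum q z).mul_left ((L : ℝ)⁻¹)
  have hinj : Function.Injective (fun m : ℕ => L * m) := fun a b hab =>
    Nat.eq_of_mul_eq_mul_left (Nat.pos_of_ne_zero hL.1) hab
  rw [← hinj.hasSum_iff]
  · refine phi_hasSum_congr ?_ h
    intro m
    by_cases hm : smooth z m ∧ m.Coprime q
    · have h1 : (smooth z (L * m) ∧ (L * m).Coprime q) ∧ L ∣ L * m :=
        ⟨⟨phi_smooth_mul hL hm.1, Nat.Coprime.mul_left hLq hm.2⟩, dvd_mul_right _ _⟩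
      simp only [Function.comp]
      rw [if_pos h1, if_pos hm]
      push_cast
      rw [one_div, one_div, mul_inv]
    · have h1 : ¬ ((smooth z (L * m) ∧ (L * m).Coprime q) ∧ L ∣ L * m) := fun h =>
        hm ⟨phi_smooth_dvd h.1.1 (dvd_mul_left _ _), Nat.Coprime.coprime_mul_left h.1.2⟩
      simp only [Function.comp]
      rw [if_neg h1, if_neg hm, mul_zero]
  · intro m hm
    rw [if_neg]
    rintro ⟨-, k, rfl⟩
    exact hm ⟨k, rfl⟩

theorem td_B_cop {q z A : ℕ} {a : ℕ → ℝ}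
    (ha : ∀ k, a k ≠ 0 → smooth z k ∧ k ≤ A ∧ k.Coprime q) {d : ℕ}
    (hd : phi_B A a d ≠ 0) : smooth z d ∧ d.Coprime q := by
  obtain ⟨k, _, hk2⟩ := Finset.exists_ne_zero_of_sum_ne_zero hd
  by_cases h : d ∣ k
  · rw [if_pos h] at hk2
    have h1 : a k ≠ 0 := by
      rintro h0
      rw [h0, zero_div] at hk2
      exact hk2 rfl
    exact ⟨phi_smooth_dvd (ha k h1).1 h, (ha k h1).2.2.coprime_dvd_left h⟩
  · rw [if_neg h] at hk2
    exact absurd rfl hk2

open Classical in
theorem td_phi_al {q z A : ℕ} {a : ℕ → ℝ}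
    (ha : ∀ k, a k ≠ 0 → smooth z k ∧ k ≤ A ∧ k.Coprime q) :
    Summable (fun m : ℕ => if smooth z m ∧ m.Coprime q then Ph A a m ^ 2 / m else 0) ∧
    ∑ u ∈ Finset.Icc 1 A, phi u * al A a u ^ 2 = td_V q z * cnC q z A a := by
  set B := phi_B A a with hB
  have hV := td_V_pos q z
  have key : HasSum (fun m : ℕ => if smooth z m ∧ m.Coprime q then Ph A a m ^ 2 / m else 0)
      (∑ d ∈ Finset.Icc 1 A, ∑ d' ∈ Finset.Icc 1 A,
        (d : ℝ) * B d * (d' * B d') * (((Nat.lcm d d' : ℕ) : ℝ)⁻¹ * (td_V q z)⁻¹)) := by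
    have h1 : (fun m : ℕ => if smooth z m ∧ m.Coprime q then Ph A a m ^ 2 / m else 0) =
        fun m : ℕ => ∑ d ∈ Finset.Icc 1 A, ∑ d' ∈ Finset.Icc 1 A,
          (d : ℝ) * B d * (d' * B d') *
            (if (smooth z m ∧ m.Coprime q) ∧ Nat.lcm d d' ∣ m then (1 : ℝ) / m else 0) := by
      funext m
      by_cases hm : smooth z m ∧ m.Coprime q
      · rw [if_pos hm, phi_Ph, sq, Finset.sum_mul_sum, Finset.sum_div]
        refine Finset.sum_congr rfl fun d _ => ?_
        rw [Finset.sum_div]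
        refine Finset.sum_congr rfl fun d' _ => ?_
        by_cases h1 : d ∣ m
        · by_cases h2 : d' ∣ m
          · rw [if_pos h1, if_pos h2, if_pos ⟨hm, Nat.lcm_dvd h1 h2⟩]
            ring
          · have hn : ¬ ((smooth z m ∧ m.Coprime q) ∧ Nat.lcm d d' ∣ m) :=
              fun h => h2 ((Nat.dvd_lcm_right _ _).trans h.2)
            rw [if_neg h2, if_neg hn]
            ring
        · have hn : ¬ ((smooth z m ∧ m.Coprime q) ∧ Nat.lcm d d' ∣ m) :=
            fun h => h1 ((Nat.dvd_lcm_left _ _).trans h.2)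
          rw [if_neg h1, if_neg hn]
          ring
      · rw [if_neg hm]
        symm
        refine Finset.sum_eq_zero fun d _ => Finset.sum_eq_zero fun d' _ => ?_
        rw [if_neg (fun h => hm h.1), mul_zero]
    rw [h1]
    refine hasSum_sum fun d _ => hasSum_sum fun d' _ => ?_
    by_cases hd : B d = 0
    · simp only [hd, mul_zero, zero_mul]
      exact hasSum_zero
    by_cases hd' : B d' = 0
    · simp only [hd', mul_zero, zero_mul]
      exact hasSum_zero
    have h2 : smooth z (Nat.lcm d d') :=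
      phi_smooth_dvd (phi_smooth_mul (td_B_cop ha hd).1 (td_B_cop ha hd').1)
        (Nat.lcm_dvd_mul d d')
    have h3 : (Nat.lcm d d').Coprime q :=
      (Nat.Coprime.mul_left (td_B_cop ha hd).2 (td_B_cop ha hd').2).coprime_dvd_left
        (Nat.lcm_dvd_mul d d')
    exact (td_hasSum_dvd h2 h3).mul_left _
  refine ⟨key.summable, ?_⟩
  have hcn : cnC q z A a = _ := key.tsum_eq
  rw [hcn, Finset.mul_sum]
  have h3 : ∀ d ∈ Finset.Icc 1 A, ∀ d' ∈ Finset.Icc 1 A,
      td_V q z * ((d : ℝ) * B d * (d' * B d') * (((Nat.lcm d d' : ℕ) : ℝ)⁻¹ * (td_V q z)⁻¹)) =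
        ∑ u ∈ Finset.Icc 1 A, (if u ∣ d ∧ u ∣ d' then phi u else 0) * (B d * B d') := by
    intro d hd d' hd'
    rw [← Finset.sum_mul, ← phi_gcd hd]
    rw [Finset.mem_Icc] at hd hd'
    have h4 : ((Nat.gcd d d' : ℕ) : ℝ) * ((Nat.lcm d d' : ℕ) : ℝ) = d * d' := by
      rw [← Nat.cast_mul, Nat.gcd_mul_lcm, Nat.cast_mul]
    have h5 : ((Nat.lcm d d' : ℕ) : ℝ) ≠ 0 := by
      have := Nat.lcm_pos (m := d) (n := d') (by omega) (by omega)
      exact_mod_cast this.ne'
    calc td_V q z * ((d : ℝ) * B d * (d' * B d') *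
          (((Nat.lcm d d' : ℕ) : ℝ)⁻¹ * (td_V q z)⁻¹))
        = (td_V q z * (td_V q z)⁻¹) * ((d : ℝ) * d') * ((Nat.lcm d d' : ℕ) : ℝ)⁻¹ *
            (B d * B d') := by ring
      _ = ((Nat.gcd d d' : ℕ) : ℝ) * (((Nat.lcm d d' : ℕ) : ℝ) * ((Nat.lcm d d' : ℕ) : ℝ)⁻¹) *
            (B d * B d') := by
          rw [mul_inv_cancel₀ hV.ne', ← h4]; ring
      _ = _ := by rw [mul_inv_cancel₀ h5, mul_one]
  symm
  calc ∑ d ∈ Finset.Icc 1 A, td_V q z * ∑ d' ∈ Finset.Icc 1 A,
        (d : ℝ) * B d * (d' * B d') * (((Nat.lcm d d' : ℕ) : ℝ)⁻¹ * (td_V q z)⁻¹)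
      = ∑ d ∈ Finset.Icc 1 A, ∑ d' ∈ Finset.Icc 1 A, ∑ u ∈ Finset.Icc 1 A,
          (if u ∣ d ∧ u ∣ d' then phi u else 0) * (B d * B d') := by
        refine Finset.sum_congr rfl fun d hd => ?_
        rw [Finset.mul_sum]
        exact Finset.sum_congr rfl fun d' hd' => h3 d hd d' hd'
    _ = ∑ d ∈ Finset.Icc 1 A, ∑ u ∈ Finset.Icc 1 A, ∑ d' ∈ Finset.Icc 1 A,
          (if u ∣ d ∧ u ∣ d' then phi u else 0) * (B d * B d') :=
        Finset.sum_congr rfl fun d _ => Finset.sum_comm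
    _ = ∑ u ∈ Finset.Icc 1 A, ∑ d ∈ Finset.Icc 1 A, ∑ d' ∈ Finset.Icc 1 A,
          (if u ∣ d ∧ u ∣ d' then phi u else 0) * (B d * B d') := Finset.sum_comm
    _ = _ := by
        refine Finset.sum_congr rfl fun u hu => ?_
        rw [phi_al_eq A a (Finset.mem_Icc.1 hu).1, sq, Finset.sum_mul_sum, Finset.mul_sum]
        refine Finset.sum_congr rfl fun d _ => ?_
        rw [Finset.mul_sum]
        refine Finset.sum_congr rfl fun d' _ => ?_
        by_cases h1 : u ∣ d
        · by_cases h2 : u ∣ d'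
          · rw [if_pos ⟨h1, h2⟩, if_pos h1, if_pos h2]
          · rw [if_neg (fun h => h2 h.2), if_neg h2]; ring
        · rw [if_neg (fun h => h1 h.1), if_neg h1]; ring

open Classical in
/-- the sum over the smooth denominators -/
theorem phi_alC {q z A : ℕ} (hq : 1 ≤ q) {a : ℕ → ℝ}
    (ha : ∀ k, a k ≠ 0 → smooth z k ∧ k ≤ A ∧ k.Coprime q) :
    Summable (fun m : ℕ => if smooth z m ∧ m.Coprime q then Ph A a m ^ 2 / m else 0) ∧
    (∏ p ∈ (Finset.Icc 1 z).filter (fun p => p.Prime ∧ p ∣ q), (1 - 1 / (p : ℝ))) *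
      ∑ u ∈ Finset.Icc 1 A, phi u * al A a u ^ 2 = Vz z * cnC q z A a := by
  refine ⟨(td_phi_al ha).1, ?_⟩
  rw [(td_phi_al ha).2, ← mul_assoc]
  congr 1
  exact td_PV q z

/-! ## The rough denominators -/

theorem td_card {q : ℕ} (hq : 1 ≤ q) : (q.primeFactors.card : ℝ) * Real.log 2 ≤ Real.log q := by
  have h1 : 2 ^ q.primeFactors.card ≤ q := by
    calc 2 ^ q.primeFactors.card ≤ ∏ p ∈ q.primeFactors, p := by
          apply Finset.pow_card_le_prod
          intro p hp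
          exact (Nat.prime_of_mem_primeFactors hp).two_le
      _ ≤ q := Nat.le_of_dvd (by omega) (Nat.prod_primeFactors_dvd q)
  have h2 : ((2 : ℝ)) ^ q.primeFactors.card ≤ q := by exact_mod_cast h1
  have h3 := Real.log_le_log (by positivity) h2
  rwa [Real.log_pow] at h3

/-- the number of large prime factors -/
theorem td_card2 {q z : ℕ} (hq : 1 ≤ q) :
    ((q.primeFactors.filter (fun p => z < p)).card : ℝ) ≤ 2 * Real.log q := by
  have h1 := td_card hq
  have h2 : ((q.primeFactors.filter (fun p => z < p)).card : ℝ) ≤ q.primeFactors.card := by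
    exact_mod_cast Finset.card_filter_le _ _
  have h3 := Real.log_two_gt_d9
  have h4 : (0 : ℝ) ≤ q.primeFactors.card := Nat.cast_nonneg _
  nlinarith

theorem td_one_sub {s : Finset ℕ} {f : ℕ → ℝ} (h0 : ∀ p ∈ s, 0 ≤ f p) (h1 : ∀ p ∈ s, f p ≤ 1) :
    1 - ∑ p ∈ s, f p ≤ ∏ p ∈ s, (1 - f p) := by
  classical
  induction s using Finset.induction_on with
  | empty => simp
  | insert p s hp ih =>
    rw [Finset.sum_insert hp, Finset.prod_insert hp]
    have ih' := ih (fun p hp => h0 p (Finset.mem_insert_of_mem hp))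
      (fun p hp => h1 p (Finset.mem_insert_of_mem hp))
    have a0 := h0 p (Finset.mem_insert_self _ _)
    have a1 := h1 p (Finset.mem_insert_self _ _)
    have a2 : 0 ≤ ∑ p ∈ s, f p := Finset.sum_nonneg fun p hp =>
      h0 p (Finset.mem_insert_of_mem hp)
    calc 1 - (f p + ∑ p ∈ s, f p) ≤ (1 - f p) * (1 - ∑ p ∈ s, f p) := by nlinarith
      _ ≤ _ := mul_le_mul_of_nonneg_left ih' (by linarith)

/-- `φ(q)/q` -/
theorem td_phiq {q z : ℕ} (hq : 1 ≤ q) (hz : 1 ≤ z) :
    phi q / q ≤ td_P q z ∧ td_P q z * (1 - 2 * Real.log q / z) ≤ phi q / q := by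
  have hq0 : (0 : ℝ) < q := by exact_mod_cast hq
  have hz0 : (0 : ℝ) < z := by exact_mod_cast hz
  have h1 : phi q / q = ∏ p ∈ q.primeFactors, (1 - 1 / (p : ℝ)) := by
    have h2 := Nat.totient_eq_mul_prod_factors q
    have h3 : phi q = q * ∏ p ∈ q.primeFactors, (1 - 1 / (p : ℝ)) := by
      show ((Nat.totient q : ℕ) : ℝ) = _
      have h4 : (((Nat.totient q : ℕ) : ℚ) : ℝ) =
          (((q : ℚ) * ∏ p ∈ q.primeFactors, (1 - (p : ℚ)⁻¹) : ℚ) : ℝ) := by rw [h2]
      push_cast at h4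
      simp only [one_div]
      exact h4
    rw [h3, mul_div_cancel_left₀ _ hq0.ne']
  have h5 : ∏ p ∈ q.primeFactors, (1 - 1 / (p : ℝ)) =
      td_P q z * ∏ p ∈ q.primeFactors.filter (fun p => z < p), (1 - 1 / (p : ℝ)) := by
    rw [← Finset.prod_filter_mul_prod_filter_not q.primeFactors (fun p => p ≤ z)]
    congr 1
    · unfold td_P
      apply Finset.prod_congr _ fun _ _ => rfl
      ext p
      simp only [Finset.mem_filter, Nat.mem_primeFactors, Finset.mem_Icc]
      constructor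
      · rintro ⟨⟨a1, a2, a3⟩, a4⟩
        exact ⟨⟨a1.one_le, a4⟩, a1, a2⟩
      · rintro ⟨⟨a1, a2⟩, a3, a4⟩
        exact ⟨⟨a3, a4, by omega⟩, a2⟩
    · apply Finset.prod_congr _ fun _ _ => rfl
      ext p
      simp only [Finset.mem_filter, not_le]
  rw [h1, h5]
  have hP := td_P_pos q z
  have hpr : ∀ p ∈ q.primeFactors.filter (fun p => z < p), p.Prime ∧ z < p := fun p hp =>
    ⟨Nat.prime_of_mem_primeFactors (Finset.mem_filter.1 hp).1, (Finset.mem_filter.1 hp).2⟩
  constructor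
  · have h6 : ∏ p ∈ q.primeFactors.filter (fun p => z < p), (1 - 1 / (p : ℝ)) ≤ 1 := by
      apply Finset.prod_le_one
      · intro p hp
        exact (td_factor_pos (hpr p hp).1).le
      · intro p _
        have : (0 : ℝ) ≤ 1 / p := by positivity
        linarith
    calc td_P q z * ∏ p ∈ q.primeFactors.filter (fun p => z < p), (1 - 1 / (p : ℝ))
        ≤ td_P q z * 1 := by gcongr
      _ = td_P q z := mul_one _
  · apply mul_le_mul_of_nonneg_left _ hP.le
    refine le_trans ?_ (td_one_sub (s := q.primeFactors.filter (fun p => z < p))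
      (f := fun p => 1 / (p : ℝ)) (fun p _ => by positivity) (fun p hp => by
        have h1 : (1 : ℝ) ≤ p := by exact_mod_cast (hpr p hp).1.one_le
        rw [div_le_one (by linarith)]
        exact h1))
    have h7 : ∑ p ∈ q.primeFactors.filter (fun p => z < p), 1 / (p : ℝ) ≤
        2 * Real.log q / z := by
      calc ∑ p ∈ q.primeFactors.filter (fun p => z < p), 1 / (p : ℝ)
          ≤ ∑ p ∈ q.primeFactors.filter (fun p => z < p), 1 / (z : ℝ) := by
            apply Finset.sum_le_sum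
            intro p hp
            have : (z : ℝ) ≤ p := by exact_mod_cast (hpr p hp).2.le
            gcongr
        _ = ((q.primeFactors.filter (fun p => z < p)).card : ℝ) * (1 / z) := by
            rw [Finset.sum_const, nsmul_eq_mul]
        _ ≤ 2 * Real.log q * (1 / z) := by
            have := td_card2 (z := z) hq
            gcongr
        _ = _ := by ring
    linarith

/-- the sum over the rough numbers coprime to `q` -/
theorem td_rough {q z X : ℕ} (hq : 1 ≤ q) (hz : 1 ≤ z) :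
    (1 - 2 * Real.log q / z) * ∑ r ∈ RO z X, mu r ^ 2 / phi r ≤
      ∑ r ∈ (RO z X).filter (fun r => r.Coprime q), mu r ^ 2 / phi r := by
  classical
  have hz0 : (0 : ℝ) < z := by exact_mod_cast hz
  obtain ⟨G, hG⟩ : ∃ G, G = ∑ r ∈ RO z X, mu r ^ 2 / phi r := ⟨_, rfl⟩
  have hnn : ∀ r : ℕ, 0 ≤ mu r ^ 2 / phi r := fun r =>
    div_nonneg (sq_nonneg _) (GDL_phi_nonneg r)
  have hG0 : 0 ≤ G := by rw [hG]; exact Finset.sum_nonneg fun r _ => hnn r
  have h1 : G = ∑ r ∈ (RO z X).filter (fun r => r.Coprime q), mu r ^ 2 / phi r +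
      ∑ r ∈ (RO z X).filter (fun r => ¬ r.Coprime q), mu r ^ 2 / phi r := by
    rw [hG, Finset.sum_filter_add_sum_filter_not]
  have h2 : ∑ r ∈ (RO z X).filter (fun r => ¬ r.Coprime q), mu r ^ 2 / phi r ≤
      2 * Real.log q / z * G := by
    calc ∑ r ∈ (RO z X).filter (fun r => ¬ r.Coprime q), mu r ^ 2 / phi r
        ≤ ∑ r ∈ (RO z X).filter (fun r => ¬ r.Coprime q),
            ∑ p ∈ q.primeFactors.filter (fun p => z < p),
              (if p ∣ r then mu r ^ 2 / phi r else 0) := by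
          apply Finset.sum_le_sum
          intro r hr
          rw [Finset.mem_filter] at hr
          obtain ⟨hr1, hr2⟩ := hr
          obtain ⟨b1, b2, b3⟩ := GDL_mem_RO.1 hr1
          rw [Nat.coprime_iff_gcd_eq_one] at hr2
          obtain ⟨p, hp, hpg⟩ := Nat.exists_prime_and_dvd hr2
          have hp1 := hpg.trans (Nat.gcd_dvd_left _ _)
          have hp2 := hpg.trans (Nat.gcd_dvd_right _ _)
          have hmem : p ∈ q.primeFactors.filter (fun p => z < p) := by
            rw [Finset.mem_filter, Nat.mem_primeFactors]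
            exact ⟨⟨hp, hp2, by omega⟩, b3 p hp hp1⟩
          have h3 := Finset.single_le_sum (f := fun p => if p ∣ r then mu r ^ 2 / phi r else 0)
            (s := q.primeFactors.filter (fun p => z < p))
            (fun p _ => by
              by_cases hpr : p ∣ r
              · simp only [if_pos hpr]; exact hnn r
              · simp only [if_neg hpr]; exact le_rfl) hmem
          simp only [if_pos hp1] at h3
          exact h3
      _ ≤ ∑ r ∈ RO z X, ∑ p ∈ q.primeFactors.filter (fun p => z < p),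
              (if p ∣ r then mu r ^ 2 / phi r else 0) := by
          apply Finset.sum_le_sum_of_subset_of_nonneg (Finset.filter_subset _ _)
          intro r _ _
          apply Finset.sum_nonneg
          intro p _
          split_ifs
          · exact hnn r
          · exact le_rfl
      _ = ∑ p ∈ q.primeFactors.filter (fun p => z < p),
            ∑ r ∈ (RO z X).filter (fun r => p ∣ r), mu r ^ 2 / phi r := by
          rw [Finset.sum_comm]
          apply Finset.sum_congr rfl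
          intro p _
          rw [Finset.sum_filter]
      _ ≤ ∑ p ∈ q.primeFactors.filter (fun p => z < p), 1 / z * G := by
          apply Finset.sum_le_sum
          intro p hp
          rw [Finset.mem_filter, Nat.mem_primeFactors] at hp
          obtain ⟨⟨hpp, hpq, -⟩, hzp⟩ := hp
          have hp1 : (z : ℝ) ≤ (p - 1 : ℕ) := by exact_mod_cast (show z ≤ p - 1 by omega)
          have h4 : ∀ r ∈ (RO z X).filter (fun r => p ∣ r),
              mu r ^ 2 / phi r ≤ 1 / z * (mu (r / p) ^ 2 / phi (r / p)) := by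
            intro r hr
            rw [Finset.mem_filter] at hr
            obtain ⟨hr1, s, rfl⟩ := hr
            obtain ⟨b1, b2, b3⟩ := GDL_mem_RO.1 hr1
            rw [Nat.mul_div_cancel_left _ hpp.pos]
            by_cases hsq : Squarefree (p * s)
            · have hc := Nat.coprime_of_squarefree_mul hsq
              have hs : Squarefree s := hsq.squarefree_of_dvd (dvd_mul_left _ _)
              have hs1 : 1 ≤ s := by
                rcases Nat.eq_zero_or_pos s with h | h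
                · subst h; simp at b1
                · exact h
              have hps := GDL_phi_pos hs1
              have e1 : phi (p * s) = (p - 1 : ℕ) * phi s := by
                show ((Nat.totient (p * s) : ℕ) : ℝ) = _
                rw [Nat.totient_mul hc, Nat.totient_prime hpp]
                push_cast
                rfl
              rw [e1, GDL_mu_sq hsq, GDL_mu_sq hs, div_mul_div_comm, mul_one]
              gcongr
            · have hmu : mu (p * s) = 0 := by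
                show ((ArithmeticFunction.moebius (p * s) : ℤ) : ℝ) = 0
                rw [ArithmeticFunction.moebius_eq_zero_of_not_squarefree hsq]
                simp
              rw [hmu]
              have := hnn s
              have h5 : (0 : ℝ) ≤ 1 / z * (mu s ^ 2 / phi s) := by positivity
              simpa using h5
          refine (Finset.sum_le_sum h4).trans ?_
          rw [← Finset.mul_sum]
          apply mul_le_mul_of_nonneg_left _ (by positivity)
          rw [hG]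
          have h6 : ∑ r ∈ (RO z X).filter (fun r => p ∣ r), mu (r / p) ^ 2 / phi (r / p) =
              ∑ s ∈ ((RO z X).filter (fun r => p ∣ r)).image (fun r => r / p),
                mu s ^ 2 / phi s := by
            rw [Finset.sum_image]
            intro x hx y hy hxy
            rw [Finset.mem_coe, Finset.mem_filter] at hx hy
            obtain ⟨-, x', rfl⟩ := hx
            obtain ⟨-, y', rfl⟩ := hy
            simp only [Nat.mul_div_cancel_left _ hpp.pos] at hxy
            rw [hxy]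
          rw [h6]
          apply Finset.sum_le_sum_of_subset_of_nonneg
          · intro s hs
            rw [Finset.mem_image] at hs
            obtain ⟨r, hr, rfl⟩ := hs
            rw [Finset.mem_filter] at hr
            obtain ⟨hr1, s, rfl⟩ := hr
            obtain ⟨b1, b2, b3⟩ := GDL_mem_RO.1 hr1
            rw [Nat.mul_div_cancel_left _ hpp.pos]
            refine GDL_mem_RO.2 ⟨?_, (Nat.le_mul_of_pos_left s hpp.pos).trans b2, ?_⟩
            · rcases Nat.eq_zero_or_pos s with h | h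
              · subst h; simp at b1
              · exact h
            · intro l hl hls
              exact b3 l hl (hls.mul_left p)
          · intro s _ _
            exact hnn s
      _ = ((q.primeFactors.filter (fun p => z < p)).card : ℝ) * (1 / z * G) := by
          rw [Finset.sum_const, nsmul_eq_mul]
      _ ≤ 2 * Real.log q * (1 / z * G) := by
          have := td_card2 (z := z) hq
          gcongr
      _ = _ := by ring
  rw [← hG]
  linarith

/-- the quadratic form splits -/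
theorem td_split {z M A : ℕ} {a w : ℕ → ℝ} (ha : ∀ k, a k ≠ 0 → smooth z k ∧ k ≤ A)
    (hw : ∀ r, w r ≠ 0 → rough z r ∧ 1 ≤ r ∧ r ≤ 2 * M) (S : ℕ → Prop) [DecidablePred S] :
    ∑ q ∈ Finset.Icc 1 (QA M 2 A),
      (if S q then phi q * (al A a (smp z q) * w (rop z q)) ^ 2 else 0) =
      ∑ u ∈ Finset.Icc 1 A, ∑ r ∈ Finset.Icc 1 (2 * M),
        (if S (u * r) then (phi u * al A a u ^ 2) * (phi r * w r ^ 2) else 0) := by
  rw [← Finset.sum_product']
  symm
  have key : ∀ {S' : Prop} [Decidable S'] {b c d e : ℝ},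
      (if S' then (b * c ^ 2) * (d * e ^ 2) else 0) ≠ 0 → c ≠ 0 ∧ e ≠ 0 := by
    intro S' _ b c d e h
    split_ifs at h with hS
    · constructor
      · rintro rfl; apply h; ring
      · rintro rfl; apply h; ring
    · exact absurd rfl h
  refine Finset.sum_bij_ne_zero (fun x _ _ => x.1 * x.2) ?_ ?_ ?_ ?_
  · rintro ⟨u, r⟩ hx _
    rw [Finset.mem_product, Finset.mem_Icc, Finset.mem_Icc] at hx
    rw [Finset.mem_Icc]
    refine ⟨Nat.mul_pos hx.1.1 hx.2.1, ?_⟩
    unfold QA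
    rw [mul_comm]
    exact Nat.mul_le_mul hx.2.2 hx.1.2
  · rintro ⟨u, r⟩ hx hx0 ⟨u', r'⟩ hx' hx0' h
    have h1 := key hx0
    have h1' := key hx0'
    have h2 := SRO_unique (al_supp ha h1.1).1 (hw _ h1.2).1 (al_supp ha h1'.1).1
      (hw _ h1'.2).1 (hw _ h1.2).2.1 h
    exact Prod.ext h2.1 h2.2
  · intro q hq hq0
    rw [Finset.mem_Icc] at hq
    obtain ⟨h1, h2, h3, h4, h5⟩ := smp_rop (z := z) hq.1
    have h6 : al A a (smp z q) ≠ 0 ∧ w (rop z q) ≠ 0 := by
      constructor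
      · intro h0; apply hq0; rw [h0]; simp
      · intro h0; apply hq0; rw [h0]; simp
    have h7 : (smp z q, rop z q) ∈ Finset.Icc 1 A ×ˢ Finset.Icc 1 (2 * M) := by
      rw [Finset.mem_product, Finset.mem_Icc, Finset.mem_Icc]
      exact ⟨⟨Nat.pos_of_ne_zero h3.1, (al_supp ha h6.1).2⟩, h5, (hw _ h6.2).2.2⟩
    refine ⟨(smp z q, rop z q), h7, ?_, h1⟩
    simp only [h1]
    have hS : S q := by
      by_contra hS
      rw [if_neg hS] at hq0
      exact hq0 rfl
    rw [if_pos hS]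
    have hu0 := GDL_phi_pos (Nat.pos_of_ne_zero h3.1)
    have hr0 := GDL_phi_pos h5
    have := h6.1
    have := h6.2
    positivity
  · rintro ⟨u, r⟩ hx hx0
    have h1 := key hx0
    have hus := (al_supp ha h1.1).1
    have hrr := (hw _ h1.2).1
    obtain ⟨h2, h3⟩ := smp_mul hus hrr (hw _ h1.2).2.1
    have e4 : phi (u * r) = phi u * phi r := by
      show ((Nat.totient (u * r) : ℕ) : ℝ) = _
      rw [Nat.totient_mul (GDL_coprime hus hrr)]
      push_cast
      rfl
    simp only [h2, h3, e4]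
    by_cases hS : S (u * r)
    · rw [if_pos hS, if_pos hS]; ring
    · rw [if_neg hS, if_neg hS]

theorem td_splitC {q z M A : ℕ} {a : ℕ → ℝ}
    (ha : ∀ k, a k ≠ 0 → smooth z k ∧ k ≤ A ∧ k.Coprime q) (S : ℕ → Prop) [DecidablePred S] :
    ∑ d ∈ Finset.Icc 1 (QA M 2 A), (if S d then phi d * wAC q z M 2 A a d ^ 2 else 0) =
      ∑ u ∈ Finset.Icc 1 A, ∑ r ∈ Finset.Icc 1 (2 * M),
        (if S (u * r) then (phi u * al A a u ^ 2) * (phi r * wC q z M 2 r ^ 2) else 0) := by
  unfold wAC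
  exact td_split (fun k hk => ⟨(ha k hk).1, (ha k hk).2.1⟩)
    (fun r hr => ⟨(wC_supp hr).1, (wC_supp hr).2.1, (wC_supp hr).2.2.2.1⟩) S

theorem td_cn_nonneg (q z A : ℕ) (a : ℕ → ℝ) : 0 ≤ cnC q z A a := by
  unfold cnC
  apply tsum_nonneg
  intro m
  split_ifs <;> positivity

/-- inner sum from below -/
theorem td_inner_low {q z M : ℕ} {V L κ θ : ℝ} (hV : V = Vz z) (hL : 0 < L) (hκ : 0 ≤ κ)
    (hq : 1 ≤ q) (hz : 1 ≤ z) (hθ : 2 * Real.log q / z ≤ θ) (hθ1 : θ ≤ 1)
    {x : ℝ} (hx : 1 ≤ x) (hxM : x ≤ 2 * M)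
    (h : ∀ r ∈ RO z ⌊x⌋₊, Squarefree r → r.Coprime q →
      κ ≤ phi r * L * V * (mu r * wC q z M 2 r)) :
    κ ^ 2 / (L ^ 2 * V) * ((1 - θ) * Real.log x) ≤
      ∑ r ∈ (Finset.Icc 1 (2 * M)).filter (fun r : ℕ => (r : ℝ) ≤ x),
        phi r * wC q z M 2 r ^ 2 := by
  classical
  have hVp : 0 < V := by rw [hV]; exact GDL_Vz_pos z
  have hfl : 1 ≤ ⌊x⌋₊ := Nat.le_floor (by rw [Nat.cast_one]; exact hx)
  have h1 := rsum_low (z := z) hfl
  have h2 : Real.log x ≤ Real.log ((⌊x⌋₊ : ℝ) + 1) :=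
    Real.log_le_log (by linarith) (Nat.lt_floor_add_one x).le
  have hlx : 0 ≤ Real.log x := Real.log_nonneg hx
  have hrg := td_rough (q := q) (z := z) (X := ⌊x⌋₊) hq hz
  have hsub : (RO z ⌊x⌋₊).filter (fun r => r.Coprime q) ⊆
      (Finset.Icc 1 (2 * M)).filter (fun r : ℕ => (r : ℝ) ≤ x) := by
    intro r hr
    obtain ⟨hr1, hrx, -⟩ := GDL_mem_RO.1 (Finset.mem_filter.1 hr).1
    have hrx' : (r : ℝ) ≤ x := (Nat.le_floor_iff (by linarith)).1 hrx
    rw [Finset.mem_filter, Finset.mem_Icc]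
    refine ⟨⟨hr1, ?_⟩, hrx'⟩
    have : (r : ℝ) ≤ ((2 * M : ℕ) : ℝ) := by push_cast; linarith
    exact_mod_cast this
  have h3 : ∑ r ∈ (RO z ⌊x⌋₊).filter (fun r => r.Coprime q), phi r * wC q z M 2 r ^ 2 ≤
      ∑ r ∈ (Finset.Icc 1 (2 * M)).filter (fun r : ℕ => (r : ℝ) ≤ x),
        phi r * wC q z M 2 r ^ 2 :=
    Finset.sum_le_sum_of_subset_of_nonneg hsub
      fun r _ _ => mul_nonneg (GDL_phi_nonneg r) (sq_nonneg _)
  have h4 : ∑ r ∈ (RO z ⌊x⌋₊).filter (fun r => r.Coprime q),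
        κ ^ 2 / (L ^ 2 * V ^ 2) * (mu r ^ 2 / phi r) ≤
      ∑ r ∈ (RO z ⌊x⌋₊).filter (fun r => r.Coprime q), phi r * wC q z M 2 r ^ 2 := by
    apply Finset.sum_le_sum
    intro r hr
    rw [Finset.mem_filter] at hr
    by_cases hsq : Squarefree r
    · have hr1 := (GDL_mem_RO.1 hr.1).1
      have hphi := GDL_phi_pos hr1
      have hk := h r hr.1 hsq hr.2
      have hmu := GDL_mu_sq hsq
      have e1 : κ ^ 2 ≤ (phi r * L * V * (mu r * wC q z M 2 r)) ^ 2 :=
        pow_le_pow_left₀ hκ hk 2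
      have e2 : (phi r * L * V * (mu r * wC q z M 2 r)) ^ 2 =
          mu r ^ 2 * (phi r ^ 2 * L ^ 2 * V ^ 2 * wC q z M 2 r ^ 2) := by ring
      rw [e2, hmu, one_mul] at e1
      rw [hmu]
      rw [div_mul_div_comm, mul_one, div_le_iff₀ (by positivity)]
      calc κ ^ 2 ≤ phi r ^ 2 * L ^ 2 * V ^ 2 * wC q z M 2 r ^ 2 := e1
        _ = phi r * wC q z M 2 r ^ 2 * (L ^ 2 * V ^ 2 * phi r) := by ring
    · have hmu : mu r = 0 := by
        show ((ArithmeticFunction.moebius r : ℤ) : ℝ) = 0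
        rw [ArithmeticFunction.moebius_eq_zero_of_not_squarefree hsq]
        simp
      rw [hmu]
      have : 0 ≤ phi r * wC q z M 2 r ^ 2 := mul_nonneg (GDL_phi_nonneg r) (sq_nonneg _)
      simpa using this
  rw [← Finset.mul_sum] at h4
  have h5 : V * ((1 - θ) * Real.log x) ≤
      ∑ r ∈ (RO z ⌊x⌋₊).filter (fun r => r.Coprime q), mu r ^ 2 / phi r := by
    refine le_trans ?_ hrg
    calc V * ((1 - θ) * Real.log x) = (1 - θ) * (V * Real.log x) := by ring
      _ ≤ (1 - θ) * (Vz z * Real.log ((⌊x⌋₊ : ℝ) + 1)) := by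
          rw [← hV]
          have : 0 ≤ 1 - θ := by linarith
          gcongr
      _ ≤ (1 - θ) * ∑ r ∈ RO z ⌊x⌋₊, mu r ^ 2 / phi r := by
          have : 0 ≤ 1 - θ := by linarith
          gcongr
      _ ≤ (1 - 2 * Real.log q / z) * ∑ r ∈ RO z ⌊x⌋₊, mu r ^ 2 / phi r := by
          have hG0 : 0 ≤ ∑ r ∈ RO z ⌊x⌋₊, mu r ^ 2 / phi r :=
            Finset.sum_nonneg fun r _ => div_nonneg (sq_nonneg _) (GDL_phi_nonneg r)
          apply mul_le_mul_of_nonneg_right _ hG0
          linarith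
  calc κ ^ 2 / (L ^ 2 * V) * ((1 - θ) * Real.log x)
      = κ ^ 2 / (L ^ 2 * V ^ 2) * (V * ((1 - θ) * Real.log x)) := by field_simp
    _ ≤ κ ^ 2 / (L ^ 2 * V ^ 2) *
          ∑ r ∈ (RO z ⌊x⌋₊).filter (fun r => r.Coprime q), mu r ^ 2 / phi r := by gcongr
    _ ≤ _ := h4.trans h3

/-- the sizes -/
theorem td_size {δ : ℝ} (h0 : 0 < δ) (h1 : δ < 1 / 4) {ε : ℝ} (hε : 0 < ε) : ∃ N₀ : ℕ,
    ∀ n : ℕ, N₀ ≤ n → ∀ q : ℕ, 1 ≤ q → q ≤ n → 2 * Real.log q / zz n ≤ ε := by
  obtain ⟨κ, hκ⟩ : ∃ κ, κ = min (1 / 2 : ℝ) (ε / 2) := ⟨_, rfl⟩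
  have hκ0 : 0 < κ := by rw [hκ]; positivity
  have hκ1 : κ ≤ 1 / 2 := by rw [hκ]; exact min_le_left _ _
  have hκ2 : κ ≤ ε / 2 := by rw [hκ]; exact min_le_right _ _
  obtain ⟨N₁, hN₁⟩ := sizes h0 h1 (ε := κ) hκ0
  refine ⟨N₁, fun n hn q hq hqn => ?_⟩
  obtain ⟨a1, a2, a3, -, a5, -, -, a8, a9⟩ := hN₁ n hn
  have hz2 : (2 : ℝ) ≤ zz n := by exact_mod_cast a2
  have hq0 : (0 : ℝ) < q := by exact_mod_cast hq
  have hlq : Real.log q ≤ Real.log n := Real.log_le_log hq0 (by exact_mod_cast hqn)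
  have hlz : 0 ≤ Real.log (zz n) := Real.log_nonneg (by linarith)
  -- `(log n)² ≤ z`
  have hln : 0 < Real.log n := Real.log_pos (by exact_mod_cast (show 1 < n by omega))
  have e7 : Real.log (Real.log n) ≤ 1 / 2 * Real.log (zz n) :=
    a9.trans (mul_le_mul_of_nonneg_right hκ1 hlz)
  have e8 : Real.log n ^ 2 ≤ zz n := by
    rw [← Real.log_le_log_iff (by positivity) (by linarith), Real.log_pow]
    push_cast
    linarith
  have e9 : 1 / κ ≤ Real.log n := by
    have h5 := Real.log_le_sub_one_of_pos hln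
    linarith
  rw [div_le_iff₀ hκ0] at e9
  rw [div_le_iff₀ (by linarith)]
  calc 2 * Real.log q ≤ 2 * Real.log n := by linarith
    _ ≤ 2 * Real.log n * (Real.log n * κ) := by
        nlinarith
    _ = 2 * κ * Real.log n ^ 2 := by ring
    _ ≤ ε * zz n := by
        have : 2 * κ ≤ ε := by linarith
        gcongr

theorem gd_lowerC {δ : ℝ} (h0 : 0 < δ) (h1 : δ < 1 / 4) {ε : ℝ} (hε : 0 < ε) : ∃ N₀ : ℕ,
    ∀ n : ℕ, N₀ ≤ n → ∀ q : ℕ, 1 ≤ q → q ≤ n → ∀ (A : ℕ), 1 ≤ A → ∀ a : ℕ → ℝ,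
      (∀ k, a k ≠ 0 → smooth (zz n) k ∧ k ≤ A ∧ k.Coprime q) →
      ∀ D : ℝ, 1 ≤ D → D ≤ MM δ n * (n : ℝ) ^ (-ε) →
      cnC q (zz n) A a * ((1 - ε) * Real.log D - Real.log A) / Real.log (MM δ n) ^ 2 ≤
        phi q / q * GD (wAC q (zz n) (MM δ n) 2 A a) D := by
  obtain ⟨ε₁, hε₁⟩ : ∃ ε₁, ε₁ = min (ε / 4) (min ε 1) := ⟨_, rfl⟩
  have hε₁a : ε₁ ≤ ε / 4 := by rw [hε₁]; exact min_le_left _ _
  have hε₁b : ε₁ ≤ ε := by rw [hε₁]; exact (min_le_right _ _).trans (min_le_left _ _)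
  have hε₁c : ε₁ ≤ 1 := by rw [hε₁]; exact (min_le_right _ _).trans (min_le_right _ _)
  have hε₁0 : 0 < ε₁ := by rw [hε₁]; positivity
  obtain ⟨N₁, hN₁⟩ := sizes h0 h1 (ε := 1) one_pos
  obtain ⟨N₂, hN₂⟩ := wC_asymp h0 h1 (ε := ε₁) hε₁0
  obtain ⟨N₃, hN₃⟩ := td_size h0 h1 (ε := ε₁) hε₁0
  refine ⟨max N₁ (max N₂ N₃), fun n hn q hq hqn A hA a ha D hD hDM => ?_⟩
  obtain ⟨a1, a2, a3, -, a5, -, -, -, -⟩ := hN₁ n ((le_max_left _ _).trans hn)
  have b1 := hN₂ n (((le_max_left _ _).trans (le_max_right _ _)).trans hn) q hq hqn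
  have b2 := hN₃ n (((le_max_right _ _).trans (le_max_right _ _)).trans hn) q hq hqn
  have hM3 : 3 ≤ MM δ n := by omega
  have hL : 0 < Real.log (MM δ n) := Real.log_pos (by exact_mod_cast (show 1 < MM δ n by omega))
  have hN1 : (1 : ℝ) ≤ n := by exact_mod_cast (show 1 ≤ n by omega)
  have hM0 : (0 : ℝ) < MM δ n := by exact_mod_cast (show 0 < MM δ n by omega)
  have hcn := td_cn_nonneg q (zz n) A a
  have hVp := GDL_Vz_pos (zz n)
  have hq0 : (0 : ℝ) < q := by exact_mod_cast hq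
  have hphq : 0 < phi q := GDL_phi_pos hq
  -- `GD` is nonnegative
  have hGD0 : 0 ≤ GD (wAC q (zz n) (MM δ n) 2 A a) D := by
    unfold GD
    exact Finset.sum_nonneg fun q _ => mul_nonneg (GDL_phi_nonneg q) (sq_nonneg _)
  by_cases hneg : (1 - ε) * Real.log D - Real.log A ≤ 0
  · refine le_trans ?_ (mul_nonneg (div_nonneg hphq.le hq0.le) hGD0)
    apply div_nonpos_of_nonpos_of_nonneg
    · exact mul_nonpos_of_nonneg_of_nonpos hcn hneg
    · positivity
  push Not at hneg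
  have hlogD : 0 ≤ Real.log D := Real.log_nonneg hD
  have hA1 : (1 : ℝ) ≤ A := by exact_mod_cast hA
  have hlogA : 0 ≤ Real.log A := Real.log_nonneg hA1
  have hAD : Real.log A < Real.log D := by nlinarith
  have hAD' : (A : ℝ) < D := (Real.log_lt_log_iff (by linarith) (by linarith)).1 hAD
  -- the size of `D`
  have hDM2 : D ≤ MM δ n := by
    refine hDM.trans ?_
    have : (n : ℝ) ^ (-ε) ≤ 1 := Real.rpow_le_one_of_one_le_of_nonpos hN1 (by linarith)
    calc (MM δ n : ℝ) * (n : ℝ) ^ (-ε) ≤ MM δ n * 1 := by gcongr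
      _ = MM δ n := mul_one _
  have hDM3 : D ≤ MM δ n * (n : ℝ) ^ (-ε₁) := by
    refine hDM.trans ?_
    have : (n : ℝ) ^ (-ε) ≤ (n : ℝ) ^ (-ε₁) :=
      Real.rpow_le_rpow_of_exponent_le hN1 (by linarith)
    gcongr
  have hQ : ⌊D⌋₊ ≤ QA (MM δ n) 2 A := by
    have h2 : ⌊D⌋₊ ≤ MM δ n := Nat.floor_le_of_le hDM2
    unfold QA
    nlinarith
  -- the splitting
  have hGD : GD (wAC q (zz n) (MM δ n) 2 A a) D = ∑ d ∈ Finset.Icc 1 (QA (MM δ n) 2 A),
      (if d ≤ ⌊D⌋₊ then phi d * wAC q (zz n) (MM δ n) 2 A a d ^ 2 else 0) := by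
    unfold GD
    rw [← Finset.sum_filter]
    apply Finset.sum_congr _ fun _ _ => rfl
    ext d
    rw [Finset.mem_filter, Finset.mem_Icc, Finset.mem_Icc]
    omega
  rw [hGD, td_splitC ha]
  have hinner : ∀ u ∈ Finset.Icc 1 A, (1 - ε₁) ^ 2 / (Real.log (MM δ n) ^ 2 * Vz (zz n)) *
      ((1 - ε₁) * (Real.log D - Real.log A)) * (phi u * al A a u ^ 2) ≤
      ∑ r ∈ Finset.Icc 1 (2 * MM δ n), (if u * r ≤ ⌊D⌋₊ then
        (phi u * al A a u ^ 2) * (phi r * wC q (zz n) (MM δ n) 2 r ^ 2) else 0) := by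
    intro u hu
    rw [Finset.mem_Icc] at hu
    have hu1 : (1 : ℝ) ≤ u := by exact_mod_cast hu.1
    have hu0 : (0 : ℝ) < u := by linarith
    have huA : (u : ℝ) ≤ A := by exact_mod_cast hu.2
    have hx1 : 1 ≤ D / u := by
      rw [le_div_iff₀ hu0]
      linarith
    have hxD : D / u ≤ D := div_le_self (by linarith) hu1
    have hlow := td_inner_low (q := q) (z := zz n) (M := MM δ n) rfl hL (κ := 1 - ε₁)
      (by linarith) hq (by omega) b2 hε₁c
      hx1 (by linarith) (by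
        intro r hr hsq hrq
        obtain ⟨hr1, hrx, hrr⟩ := GDL_mem_RO.1 hr
        have hrx' : (r : ℝ) ≤ D / u := (Nat.le_floor_iff (by linarith)).1 hrx
        have hrM : r ≤ MM δ n := by
          have : (r : ℝ) ≤ MM δ n := by linarith
          exact_mod_cast this
        have := b1 r (GDL_mem_RO.2 ⟨hr1, hrM, hrr⟩) hsq hrq (by linarith)
        rw [abs_le] at this
        linarith [this.1])
    have e1 : ∑ r ∈ Finset.Icc 1 (2 * MM δ n), (if u * r ≤ ⌊D⌋₊ then
        (phi u * al A a u ^ 2) * (phi r * wC q (zz n) (MM δ n) 2 r ^ 2) else 0) =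
        (phi u * al A a u ^ 2) * ∑ r ∈ (Finset.Icc 1 (2 * MM δ n)).filter
          (fun r : ℕ => (r : ℝ) ≤ D / u), phi r * wC q (zz n) (MM δ n) 2 r ^ 2 := by
      rw [Finset.mul_sum, Finset.sum_filter]
      apply Finset.sum_congr rfl
      intro r _
      have hiff : u * r ≤ ⌊D⌋₊ ↔ (r : ℝ) ≤ D / u := by
        rw [Nat.le_floor_iff (by linarith), le_div_iff₀ hu0]
        push_cast
        rw [mul_comm]
      by_cases hc : (r : ℝ) ≤ D / u
      · rw [if_pos (hiff.2 hc), if_pos hc]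
      · rw [if_neg (fun h => hc (hiff.1 h)), if_neg hc]
    rw [e1, mul_comm]
    apply mul_le_mul_of_nonneg_left _ (mul_nonneg (GDL_phi_nonneg u) (sq_nonneg _))
    refine le_trans ?_ hlow
    have e2 : Real.log D - Real.log A ≤ Real.log (D / u) := by
      rw [Real.log_div (by linarith) hu0.ne']
      have := Real.log_le_log hu0 huA
      linarith
    have e3 : 0 ≤ 1 - ε₁ := by linarith
    gcongr
  have hsum := Finset.sum_le_sum hinner
  rw [← Finset.mul_sum] at hsum
  obtain ⟨hphq1, hphq2⟩ := td_phiq (q := q) (z := zz n) hq (by omega)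
  have hPp := td_P_pos q (zz n)
  have hal := (phi_alC (z := zz n) (A := A) hq ha).2
  change td_P q (zz n) * _ = _ at hal
  have e3 : 0 ≤ 1 - ε₁ := by linarith
  have hS0 : 0 ≤ ∑ u ∈ Finset.Icc 1 A, phi u * al A a u ^ 2 :=
    Finset.sum_nonneg fun u _ => mul_nonneg (GDL_phi_nonneg u) (sq_nonneg _)
  have e4 : (1 - ε) * Real.log D - Real.log A ≤ (1 - ε₁) ^ 4 * (Real.log D - Real.log A) := by
    have e5 : 1 - ε ≤ (1 - ε₁) ^ 4 := by
      have := one_add_mul_le_pow (show (-2 : ℝ) ≤ -ε₁ by linarith) 4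
      have e6 : (1 + -ε₁) ^ 4 = (1 - ε₁) ^ 4 := by ring
      rw [e6] at this
      push_cast at this
      linarith
    have e6 : (1 - ε₁) ^ 4 ≤ 1 := pow_le_one₀ e3 (by linarith)
    nlinarith
  calc cnC q (zz n) A a * ((1 - ε) * Real.log D - Real.log A) / Real.log (MM δ n) ^ 2
      ≤ cnC q (zz n) A a * ((1 - ε₁) ^ 4 * (Real.log D - Real.log A)) /
          Real.log (MM δ n) ^ 2 := by gcongr
    _ = (1 - ε₁) * ((1 - ε₁) ^ 2 / (Real.log (MM δ n) ^ 2 * Vz (zz n)) *
          ((1 - ε₁) * (Real.log D - Real.log A)) * (Vz (zz n) * cnC q (zz n) A a)) := by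
        field_simp
    _ = td_P q (zz n) * (1 - ε₁) * ((1 - ε₁) ^ 2 / (Real.log (MM δ n) ^ 2 * Vz (zz n)) *
          ((1 - ε₁) * (Real.log D - Real.log A)) *
            ∑ u ∈ Finset.Icc 1 A, phi u * al A a u ^ 2) := by
        rw [← hal]; ring
    _ ≤ phi q / q * ((1 - ε₁) ^ 2 / (Real.log (MM δ n) ^ 2 * Vz (zz n)) *
          ((1 - ε₁) * (Real.log D - Real.log A)) *
            ∑ u ∈ Finset.Icc 1 A, phi u * al A a u ^ 2) := by
        have e7 : td_P q (zz n) * (1 - ε₁) ≤ phi q / q := by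
          refine le_trans ?_ hphq2
          apply mul_le_mul_of_nonneg_left _ hPp.le
          linarith
        have e8 : 0 ≤ Real.log D - Real.log A := by linarith
        gcongr
    _ ≤ _ := mul_le_mul_of_nonneg_left hsum (div_nonneg hphq.le hq0.le)

theorem gd_upperC : ∃ C : ℝ, 0 < C ∧ ∀ δ : ℝ, 0 < δ → δ < 1 / 4 → ∃ N₀ : ℕ, ∀ n : ℕ, N₀ ≤ n →
    ∀ q : ℕ, 1 ≤ q → q ≤ n → ∀ (A : ℕ) (a : ℕ → ℝ),
      (∀ k, a k ≠ 0 → smooth (zz n) k ∧ k ≤ A ∧ k.Coprime q) →
      phi q / q * ∑ d ∈ Finset.Icc 1 (QA (MM δ n) 2 A),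
        phi d * wAC q (zz n) (MM δ n) 2 A a d ^ 2 ≤
        C * cnC q (zz n) A a / Real.log (MM δ n) := by
  classical
  obtain ⟨C₁, hC₁, hwr⟩ := wC_upper
  obtain ⟨C₂, hC₂, hrs⟩ := rsum_up
  obtain ⟨c, C₃, hc, hC₃, hvz⟩ := vz_bounds
  refine ⟨2 * C₁ ^ 2 * C₂ / c + 2, by positivity, fun δ h0 h1 => ?_⟩
  obtain ⟨N₁, hN₁⟩ := sizes h0 h1 (ε := 1) one_pos
  obtain ⟨N₂, hN₂⟩ := hwr δ h0 h1
  obtain ⟨N₃, hN₃⟩ := be_small h0 h1 (ε := 1) one_pos
  refine ⟨max N₁ (max N₂ N₃), fun n hn q hq hqn A a ha => ?_⟩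
  obtain ⟨a1, a2, a3, -, a5, -, -, -, -⟩ := hN₁ n ((le_max_left _ _).trans hn)
  obtain ⟨b1, b2⟩ := hN₂ n (((le_max_left _ _).trans (le_max_right _ _)).trans hn) q hq hqn
  obtain ⟨-, -, c3⟩ := hN₃ n (((le_max_right _ _).trans (le_max_right _ _)).trans hn)
  have hM3 : 3 ≤ MM δ n := by omega
  have hL : 0 < Real.log (MM δ n) := Real.log_pos (by exact_mod_cast (show 1 < MM δ n by omega))
  have hlz : 0 < Real.log (zz n) := Real.log_pos (by exact_mod_cast (show 1 < zz n by omega))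
  have hzL : Real.log (zz n) ≤ Real.log (MM δ n) :=
    Real.log_le_log (by exact_mod_cast (show 0 < zz n by omega)) (by exact_mod_cast a3.le)
  have hcn := td_cn_nonneg q (zz n) A a
  have hVp := GDL_Vz_pos (zz n)
  have hV1 := GDL_Vz_le (zz n)
  have hal := (phi_alC (z := zz n) (A := A) hq ha).2
  change td_P q (zz n) * _ = _ at hal
  obtain ⟨hphq1, hphq2⟩ := td_phiq (q := q) (z := zz n) hq (by omega)
  have hsp := td_splitC (M := MM δ n) ha (fun _ => True)
  simp only [if_true] at hsp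
  have hrs' := hrs (zz n) (MM δ n) a2 (by omega)
  have hVz := (hvz (zz n) a2).1
  obtain ⟨L, hLdef⟩ : ∃ L, L = Real.log (MM δ n) := ⟨_, rfl⟩
  obtain ⟨V, hVdef⟩ : ∃ V, V = Vz (zz n) := ⟨_, rfl⟩
  rw [← hLdef] at hL hzL b1 c3 hrs' ⊢
  rw [← hVdef] at hVp hV1 hal b1 hVz
  -- the inner sum
  have hin : ∑ r ∈ Finset.Icc 1 (2 * MM δ n), phi r * wC q (zz n) (MM δ n) 2 r ^ 2 ≤
      C₁ ^ 2 / (L ^ 2 * V ^ 2) * ∑ r ∈ RO (zz n) (MM δ n), mu r ^ 2 / phi r +
        ∑ p ∈ PK (MM δ n) 2, 1 / (p : ℝ) := by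
    have hdis : Disjoint (RO (zz n) (MM δ n)) (PK (MM δ n) 2) := by
      rw [Finset.disjoint_left]
      intro r hr hr'
      have e1 := (GDL_mem_RO.1 hr).2.1
      have e2 := (GDL_mem_PK.1 hr').1
      omega
    have hsub : RO (zz n) (MM δ n) ∪ PK (MM δ n) 2 ⊆ Finset.Icc 1 (2 * MM δ n) := by
      intro r hr
      rw [Finset.mem_Icc]
      rcases Finset.mem_union.1 hr with h | h
      · obtain ⟨e1, e2, -⟩ := GDL_mem_RO.1 h
        omega
      · obtain ⟨e1, e2, e3⟩ := GDL_mem_PK.1 h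
        omega
    have hzero : ∀ r ∈ Finset.Icc 1 (2 * MM δ n), r ∉ RO (zz n) (MM δ n) ∪ PK (MM δ n) 2 →
        phi r * wC q (zz n) (MM δ n) 2 r ^ 2 = 0 := by
      intro r hr hr'
      rw [Finset.mem_union, not_or] at hr'
      rw [Finset.mem_Icc] at hr
      have hw : wC q (zz n) (MM δ n) 2 r = 0 := by
        by_contra hne
        obtain ⟨e1, e2, -, -, -⟩ := wC_supp hne
        have hrM : MM δ n < r := by
          by_contra hle
          exact hr'.1 (GDL_mem_RO.2 ⟨e2, not_lt.1 hle, e1⟩)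
        apply hne
        unfold wC
        apply Finset.sum_eq_zero
        intro m hm
        rw [Finset.mem_filter, Finset.mem_Icc] at hm
        have h3 : MM δ n < r * m := lt_of_lt_of_le hrM (Nat.le_mul_of_pos_right r (by omega))
        have h4 : r * m ∉ PK (MM δ n) 2 := by
          intro hP
          obtain ⟨_, hP2, hP3⟩ := GDL_mem_PK.1 hP
          rcases (Nat.dvd_prime hP3).1 (Dvd.intro m rfl) with h5 | h5
          · omega
          · rw [← h5] at hP
            exact hr'.2 hP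
        exact WRS_yE_big h3 h4
      rw [hw]
      ring
    rw [← Finset.sum_subset hsub hzero, Finset.sum_union hdis]
    apply add_le_add
    · rw [Finset.mul_sum]
      apply Finset.sum_le_sum
      intro r hr
      have hr1 := (GDL_mem_RO.1 hr).1
      have hphi := GDL_phi_pos hr1
      by_cases hw : wC q (zz n) (MM δ n) 2 r = 0
      · rw [hw]
        have : 0 ≤ C₁ ^ 2 / (L ^ 2 * V ^ 2) * (mu r ^ 2 / phi r) := by positivity
        simpa using this
      obtain ⟨-, -, hsq, -, -⟩ := wC_supp hw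
      rw [GDL_mu_sq hsq, div_mul_div_comm, mul_one, le_div_iff₀ (by positivity)]
      have e1 := b1 r hr
      have e2 : (phi r * L * V * wC q (zz n) (MM δ n) 2 r) ^ 2 ≤ C₁ ^ 2 := by
        rw [← sq_abs]
        exact pow_le_pow_left₀ (abs_nonneg _) e1 2
      calc phi r * wC q (zz n) (MM δ n) 2 r ^ 2 * (L ^ 2 * V ^ 2 * phi r) =
          (phi r * L * V * wC q (zz n) (MM δ n) 2 r) ^ 2 := by ring
        _ ≤ C₁ ^ 2 := e2
    · apply Finset.sum_le_sum
      intro r hr
      obtain ⟨e1, e2, e3⟩ := GDL_mem_PK.1 hr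
      have hr0 : (0 : ℝ) < r := by exact_mod_cast e3.pos
      rw [le_div_iff₀ hr0]
      have e4 := b2 r hr
      have e5 : (r * wC q (zz n) (MM δ n) 2 r) ^ 2 ≤ 1 := by
        rw [← sq_abs]
        calc |(r : ℝ) * wC q (zz n) (MM δ n) 2 r| ^ 2 ≤ 1 ^ 2 :=
              pow_le_pow_left₀ (abs_nonneg _) e4 2
          _ = 1 := one_pow 2
      calc phi r * wC q (zz n) (MM δ n) 2 r ^ 2 * r ≤
            r * wC q (zz n) (MM δ n) 2 r ^ 2 * r := by
            gcongr
            exact GDL_phi_le r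
        _ = (r * wC q (zz n) (MM δ n) 2 r) ^ 2 := by ring
        _ ≤ 1 := e5
  -- its size
  have hin2 : ∑ r ∈ Finset.Icc 1 (2 * MM δ n), phi r * wC q (zz n) (MM δ n) 2 r ^ 2 ≤
      (2 * C₁ ^ 2 * C₂ / c + 2) / (V * L) := by
    have e1 : 1 + L / Real.log (zz n) ≤ 2 * L / Real.log (zz n) := by
      rw [two_mul, add_div]
      have : 1 ≤ L / Real.log (zz n) := by
        rw [le_div_iff₀ hlz]
        linarith
      linarith
    have e2 : C₁ ^ 2 / (L ^ 2 * V ^ 2) * ∑ r ∈ RO (zz n) (MM δ n), mu r ^ 2 / phi r ≤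
        (2 * C₁ ^ 2 * C₂ / c) / (V * L) := by
      calc C₁ ^ 2 / (L ^ 2 * V ^ 2) * ∑ r ∈ RO (zz n) (MM δ n), mu r ^ 2 / phi r
          ≤ C₁ ^ 2 / (L ^ 2 * V ^ 2) * (C₂ * (1 + L / Real.log (zz n))) := by gcongr
        _ ≤ C₁ ^ 2 / (L ^ 2 * V ^ 2) * (C₂ * (2 * L / Real.log (zz n))) := by gcongr
        _ = 2 * C₁ ^ 2 * C₂ / (V * L) * ((1 / Real.log (zz n)) / V) := by field_simp
        _ ≤ 2 * C₁ ^ 2 * C₂ / (V * L) * (1 / c) := by
            have e3 : (1 / Real.log (zz n)) / V ≤ 1 / c := by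
              rw [div_le_div_iff₀ hVp hc, one_mul, one_div_mul_eq_div]
              exact hVz
            gcongr
        _ = (2 * C₁ ^ 2 * C₂ / c) / (V * L) := by field_simp
    have e4 : ∑ p ∈ PK (MM δ n) 2, 1 / (p : ℝ) ≤ 2 / (V * L) := by
      refine c3.trans ?_
      apply div_le_div_of_nonneg_left (by norm_num) (by positivity)
      calc V * L ≤ 1 * L := by gcongr
        _ = L := one_mul L
    calc _ ≤ _ := hin
      _ ≤ (2 * C₁ ^ 2 * C₂ / c) / (V * L) + 2 / (V * L) := add_le_add e2 e4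
      _ = _ := by rw [← add_div]
  have hS0 : 0 ≤ ∑ u ∈ Finset.Icc 1 A, phi u * al A a u ^ 2 :=
    Finset.sum_nonneg fun u _ => mul_nonneg (GDL_phi_nonneg u) (sq_nonneg _)
  have hR0 : 0 ≤ ∑ r ∈ Finset.Icc 1 (2 * MM δ n), phi r * wC q (zz n) (MM δ n) 2 r ^ 2 :=
    Finset.sum_nonneg fun u _ => mul_nonneg (GDL_phi_nonneg u) (sq_nonneg _)
  -- the splitting
  rw [hsp]
  calc phi q / q * ∑ u ∈ Finset.Icc 1 A, ∑ r ∈ Finset.Icc 1 (2 * MM δ n),
        (phi u * al A a u ^ 2) * (phi r * wC q (zz n) (MM δ n) 2 r ^ 2)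
      = phi q / q * ((∑ u ∈ Finset.Icc 1 A, phi u * al A a u ^ 2) *
        ∑ r ∈ Finset.Icc 1 (2 * MM δ n), phi r * wC q (zz n) (MM δ n) 2 r ^ 2) := by
        rw [Finset.sum_mul_sum]
    _ ≤ td_P q (zz n) * ((∑ u ∈ Finset.Icc 1 A, phi u * al A a u ^ 2) *
        ∑ r ∈ Finset.Icc 1 (2 * MM δ n), phi r * wC q (zz n) (MM δ n) 2 r ^ 2) :=
        mul_le_mul_of_nonneg_right hphq1 (mul_nonneg hS0 hR0)
    _ = (V * cnC q (zz n) A a) *
        ∑ r ∈ Finset.Icc 1 (2 * MM δ n), phi r * wC q (zz n) (MM δ n) 2 r ^ 2 := by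
        rw [← hal]; ring
    _ ≤ (V * cnC q (zz n) A a) * ((2 * C₁ ^ 2 * C₂ / c + 2) / (V * L)) := by gcongr
    _ = (2 * C₁ ^ 2 * C₂ / c + 2) * cnC q (zz n) A a / L := by field_simp

end Pool.Agent.TK
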